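import Mathlib
import Pool.Agent.Run7.h22.Rel12
import Pool.Agent.TH53.SL5

/-!
# The smallest Mahler measure for polynomials of small degree over fields with few Frobenius automorphisms

Let `g` be an irreducible integer polynomial of degree `n` with Mahler measure `M(g) > 1`, let `p` be a
prime number, `a ≥ 1`, `K` a Galois number field which contains a zero of `g` and in which `p` is
unramified, and let `E` be a subfield of `K` which is normal over `ℚ` (in the applications much smaller
than the splitting field of `g`). Let `k` be the number of the automorphisms of `E` that are `a`-th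
powers of Frobenius automorphisms above `p`, and let the zeros of `g` have degree at most `D` over the
field generated by `E` and the roots of unity of `K` of order prime to `p`. The weight is

  `w = p ^ (a + 2) D ^ 3 k exp (17 √(log (2 k) log (2 D)))`.

1. `M(g) ≥ min (2, exp (c n / w))` with an absolute constant `c > 0`.
2. Let `ψ (n) = o (n)`. Only finitely many irreducible `g` with `1 < M(g) < 2` have a weight `w ≤ ψ (n)`
   for some choice of `p`, `a`, `K`, `E`, `D`. In particular only finitely many of them have a Mahler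
   measure greater than one and less than that of Lehmer's polynomial `L`.
3. Among the Mahler measures greater than one of the polynomials all of whose irreducible factors `g`
   with `M(g) > 1` satisfy this condition there is a smallest one, if some of them is less than two.

The field `E` can be the field generated by the numbers `α + 1 / α`, `α` a zero of `g`; then `D ≤ 2`.
For a reciprocal polynomial this is the splitting field of the trace polynomial, and the Galois group of
`g` can be larger by a factor `2 ^ (n / 2)`.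
-/

set_option autoImplicit false

open Polynomial NumberField Filter Topology

namespace Pool.Agent.Results.MP_dc0c68_nt.FewFrobeniusRelative

/-- the Mahler measure of an integer polynomial -/
noncomputable def M (f : ℤ[X]) : ℝ := (f.map (Int.castRingHom ℂ)).mahlerMeasure

/-- Lehmer's polynomial -/
noncomputable def L : ℤ[X] := X ^ 10 + X ^ 9 - X ^ 7 - X ^ 6 - X ^ 5 - X ^ 4 - X ^ 3 + X + 1

section

variable {K : Type} [Field K] [NumberField K]

variable (K) in
/-- the number `p` is not contained in the square of a prime ideal of the number field `K`; for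
a prime number `p` this means that `p` is unramified in `K` -/
def Unramified (p : ℕ) : Prop :=
  ∀ 𝔓 : Ideal (𝓞 K), 𝔓.IsPrime → (p : 𝓞 K) ∈ 𝔓 → (p : 𝓞 K) ∉ 𝔓 ^ 2

/-- the subfield `E` is normal over `ℚ` -/
def IsNormal (E : IntermediateField ℚ K) : Prop := Normal ℚ E

/-- the automorphisms of a subfield `E` which are congruent to the map `x ↦ x ^ (p ^ a)` modulo some
prime ideal of `E` above `p`; if `p` is unramified they are the `a`-th powers of the Frobenius
automorphisms above `p` -/
def frobenii (E : IntermediateField ℚ K) (p a : ℕ) : Set (E ≃ₐ[ℚ] E) :=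
  {σ | ∃ 𝔓 : Ideal (𝓞 E), 𝔓.IsPrime ∧ (p : 𝓞 E) ∈ 𝔓 ∧ ∀ x : 𝓞 E, σ • x - x ^ (p ^ a) ∈ 𝔓}

/-- the number of these automorphisms -/
noncomputable def k (E : IntermediateField ℚ K) (p a : ℕ) : ℕ := (frobenii E p a).ncard

/-- the field generated by `E` and the `p`-th powers of the roots of unity of `K` (if `p` is
unramified, these are the roots of unity of order prime to `p`, except for signs) -/
def withRoots (E : IntermediateField ℚ K) (p : ℕ) : IntermediateField ℚ K :=
  E ⊔ IntermediateField.adjoin ℚ {x | ∃ ζ : K, (∃ m : ℕ, 0 < m ∧ ζ ^ m = 1) ∧ x = ζ ^ p}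

/-- all zeros of `g` in `K` have degree at most `D` over `withRoots E p` -/
def DegreeLE (g : ℤ[X]) (E : IntermediateField ℚ K) (p D : ℕ) : Prop :=
  ∀ α : K, aeval α g = 0 → (minpoly (withRoots E p) α).natDegree ≤ D

end

/-- the number `p ^ (a + 2) D ^ 3 k exp (17 √(log (2 k) log (2 D)))` -/
noncomputable def weight (p a D k : ℕ) : ℝ :=
  (p : ℝ) ^ (a + 2) * ((D : ℝ) ^ 3 * k * Real.exp (17 * Real.sqrt (Real.log (2 * k) * Real.log (2 * D))))

/-- for some `p`, `a`, `K`, `E`, `D` the zeros of `g` have degree at most `D` over `withRoots E p`, and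
the weight is at most `B` -/
def Small (B : ℝ) (g : ℤ[X]) : Prop :=
  ∃ (p a D : ℕ) (K : Type) (_ : Field K) (_ : NumberField K), p.Prime ∧ 1 ≤ a ∧ IsGalois ℚ K ∧
    Unramified K p ∧ (∃ α : K, aeval α g = 0) ∧
    ∃ E : IntermediateField ℚ K, IsNormal E ∧ DegreeLE g E p D ∧ weight p a D (k E p a) ≤ B

/-- all irreducible factors `g` of `f` with `M g > 1` satisfy the condition with `B = ψ (deg g)` -/
def Few (ψ : ℕ → ℝ) (f : ℤ[X]) : Prop :=
  ∀ g : ℤ[X], Irreducible g → g ∣ f → 1 < M g → Small (ψ g.natDegree) g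

lemma few_of_dvd {ψ : ℕ → ℝ} {f g : ℤ[X]} (h : Few ψ f) (hg : g ∣ f) : Few ψ g :=
  fun q hq hqg => h q hq (hqg.trans hg)

/-- the inequality -/
lemma small_bound : ∃ A : ℝ, 0 < A ∧ ∀ g : ℤ[X], Irreducible g → 1 < M g → M g < 2 → ∀ B : ℝ,
    Small B g → 0 ≤ B ∧ (g.natDegree : ℝ) ≤ A * B * Real.log (M g) := by
  obtain ⟨A, hA, h⟩ := Pool.Agent.Run7.h22.poly_rel
  refine ⟨A, hA, ?_⟩
  intro g hg h1 h2 B hB
  obtain ⟨p, a, D, K, hKf, hKn, hp, ha, hgal, hunr, ⟨α, hα⟩, E, hE, hD, hw⟩ := hB
  have hE' : Normal ℚ E := hE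
  have h3 : (g.natDegree : ℝ) ≤ A * (p : ℝ) ^ (a + 2) * ((D : ℝ) ^ 3 * k E p a *
      Real.exp (17 * Real.sqrt (Real.log (2 * k E p a) * Real.log (2 * D)))) * Real.log (M g) :=
    h p a hp ha K hunr g hg h1 h2 α hα E D (hD α hα)
  have h4 : (g.natDegree : ℝ) ≤ A * weight p a D (k E p a) * Real.log (M g) := by
    unfold weight
    linarith
  have hw0 : 0 ≤ weight p a D (k E p a) := by unfold weight; positivity
  refine ⟨hw0.trans hw, h4.trans ?_⟩
  exact mul_le_mul_of_nonneg_right (mul_le_mul_of_nonneg_left hw hA.le) (Real.log_nonneg h1.le)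

/-- the irreducible polynomials with a measure between one and two in the class are finite in number -/
lemma irr_finite {ψ : ℕ → ℝ} (hψ : Tendsto (fun n : ℕ => ψ n / n) atTop (𝓝 0)) :
    {g : ℤ[X] | Irreducible g ∧ 1 < M g ∧ M g < 2 ∧ Small (ψ g.natDegree) g}.Finite := by
  obtain ⟨A, hA, h⟩ := small_bound
  obtain ⟨N, hN⟩ : ∃ N : ℕ, ∀ n : ℕ, N ≤ n → ψ n / n < 1 / A := by
    have h1 := hψ.eventually_lt_const (show (0:ℝ) < 1 / A by positivity)
    exact eventually_atTop.mp h1
  apply (finite_mahlerMeasure_le N (2 : NNReal)).subset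
  rintro g ⟨hg, h1, h2, hs⟩
  obtain ⟨h0, h3⟩ := h g hg h1 h2 _ hs
  refine ⟨?_, ?_⟩
  · by_contra hdeg
    push Not at hdeg
    have hd : (0:ℝ) < g.natDegree := by
      have : 0 < g.natDegree := by omega
      exact_mod_cast this
    have h4 := hN g.natDegree hdeg.le
    rw [div_lt_iff₀ hd, one_div_mul_eq_div, lt_div_iff₀ hA] at h4
    have h5 : Real.log (M g) ≤ 1 := by
      have h6 : Real.log (M g) ≤ Real.log 2 := Real.log_le_log (by linarith) h2.le
      have := Real.log_two_lt_d9
      linarith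
    have h6 : A * ψ g.natDegree * Real.log (M g) ≤ A * ψ g.natDegree * 1 :=
      mul_le_mul_of_nonneg_left h5 (mul_nonneg hA.le h0)
    linarith
  · show M g ≤ ((2 : NNReal) : ℝ)
    rw [NNReal.coe_ofNat]
    exact h2.le

/-- **The smallest Mahler measure for polynomials of small degree over fields with few Frobenius
automorphisms.** There is an absolute constant `c > 0` such that `M g ≥ min (2, exp (c (deg g / B)))` for
every irreducible `g` with `M g > 1` and every `B` with `Small B g`. Let `ψ n = o(n)`. Then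
* the number of the irreducible `g` with `1 < M g < 2` and `Small (ψ (deg g)) g` is finite, in
  particular the number of those with `1 < M g < M L`;
* if the Mahler measure of some polynomial in the class `Few ψ` is greater than one and less than two,
  then there is a smallest Mahler measure greater than one of the polynomials in this class. -/
theorem result : (∃ c : ℝ, 0 < c ∧ ∀ g : ℤ[X], Irreducible g → 1 < M g → ∀ B : ℝ, Small B g →
      min 2 (Real.exp (c * (g.natDegree / B))) ≤ M g) ∧
    ∀ ψ : ℕ → ℝ, Tendsto (fun n : ℕ => ψ n / n) atTop (𝓝 0) →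
      {g : ℤ[X] | Irreducible g ∧ 1 < M g ∧ M g < 2 ∧ Small (ψ g.natDegree) g}.Finite ∧
      {g : ℤ[X] | Irreducible g ∧ 1 < M g ∧ M g < M L ∧ Small (ψ g.natDegree) g}.Finite ∧
      ((∃ f : ℤ[X], f ≠ 0 ∧ Few ψ f ∧ 1 < M f ∧ M f < 2) →
        ∃ f₀ : ℤ[X], f₀ ≠ 0 ∧ Few ψ f₀ ∧ 1 < M f₀ ∧
          ∀ f : ℤ[X], f ≠ 0 → Few ψ f → 1 < M f → M f₀ ≤ M f) := by
  refine ⟨?_, ?_⟩
  · obtain ⟨A, hA, h⟩ := small_bound
    refine ⟨1 / A, by positivity, ?_⟩
    intro g hg h1 B hB
    have hM : 0 < M g := by linarith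
    have hlogM : 0 < Real.log (M g) := Real.log_pos h1
    rcases le_or_gt 2 (M g) with h2 | h2
    · exact (min_le_left _ _).trans h2
    refine (min_le_right _ _).trans ?_
    rw [← Real.le_log_iff_exp_le hM]
    obtain ⟨h0, h3⟩ := h g hg h1 h2 B hB
    rcases h0.eq_or_lt with h0 | h0
    · rw [← h0, div_zero, mul_zero]
      exact hlogM.le
    · rw [one_div_mul_eq_div, div_div, div_le_iff₀ (by positivity)]
      linarith
  · intro ψ hψ
    have hfin := irr_finite hψ
    have hL : M L < 2 := by
      have h1 : M L < (2 : ℝ) ^ ((1 : ℝ) / 4) := Pool.Agent.TH53.SL.lehmer_lt'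
      have h2 : (2 : ℝ) ^ ((1 : ℝ) / 4) ≤ (2 : ℝ) ^ (1 : ℝ) :=
        Real.rpow_le_rpow_of_exponent_le (by norm_num) (by norm_num)
      rw [Real.rpow_one] at h2
      linarith
    refine ⟨hfin, hfin.subset fun g hg => ⟨hg.1, hg.2.1, hg.2.2.1.trans hL, hg.2.2.2⟩, ?_⟩
    rintro ⟨f₁, hf₁, hP₁, h11, h12⟩
    have hS : {x : ℝ | x ≤ M f₁ ∧ ∃ f : ℤ[X], f ≠ 0 ∧ Few ψ f ∧ M f = x}.Finite := by
      apply Pool.Agent.Run7.h22.finite_of_irreducible (P := Few ψ)
        (fun f g hf hgf => few_of_dvd hf hgf)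
      apply ((hfin.image M).union (Set.finite_singleton (1:ℝ))).subset
      rintro x ⟨hxT, g, hg, hgP, rfl⟩
      have hM1 : 1 ≤ M g := Pool.Agent.H388SL.one_le_MM hg.ne_zero
      rcases hM1.eq_or_lt with h1 | h1
      · right
        exact h1.symm
      · left
        exact ⟨g, ⟨hg, h1, lt_of_le_of_lt hxT h12, hgP g hg dvd_rfl h1⟩, rfl⟩
    have hS' : {x : ℝ | 1 < x ∧ x ≤ M f₁ ∧ ∃ f : ℤ[X], f ≠ 0 ∧ Few ψ f ∧ M f = x}.Finite :=
      hS.subset fun x hx => hx.2
    obtain ⟨x, ⟨hx1, hx2, f₀, hf₀, hP₀, hx3⟩, hmin⟩ := Set.exists_min_image _ id hS'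
      ⟨M f₁, h11, le_rfl, f₁, hf₁, hP₁, rfl⟩
    refine ⟨f₀, hf₀, hP₀, by rw [hx3]; exact hx1, ?_⟩
    intro f hf hP h1
    rw [hx3]
    rcases le_or_gt (M f) (M f₁) with h2 | h2
    · exact hmin (M f) ⟨h1, h2, f, hf, hP, rfl⟩
    · exact hx2.trans h2.le

end Pool.Agent.Results.MP_dc0c68_nt.FewFrobeniusRelative
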