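import Mathlib
import Pool.Agent.Run7.h80.Sym.Geo

/-!
# Mahler measures of polynomials that differ in the middle coefficient

Let `M` be the Mahler measure. We prove inequalities for the pencil `P - t X ^ n`, in particular

* if `F ∈ ℤ[X]` is reciprocal of degree `2 n`, then for every `K` there are at most `4 K ^ 2 + 1` integers
  `k` with `M(F - k X ^ n) ≤ K`. The bound does not depend on the degree and the coefficients of `F`.

The inequalities behind it are

1. `|P(0)| M(P - x X ^ n) ≤ M(P - s X ^ n) M(P - t X ^ n)` for all complex polynomials `P` of degree at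
   most `2 n` with `P(0) ≠ 0` and all complex `s, t` and `x` on the segment from `s` to `t`;
2. `|s - t| ≤ 4 M(P - s X ^ n) M(P - t X ^ n)` for real `s, t` and
   `|Im t| ≤ M(P - t X ^ n) - 1 / M(P - t X ^ n)` for complex `t`, if `P` is self-inversive of degree `2 n`
   with `|P(0)| = 1`. There is equality for `P = X ^ 2 + 1` and `s = - t = 2`, and for `t` imaginary.

So small Mahler measures at two values of the middle coefficient imply small Mahler measures for all
values between them, and these values are close to each other.

Method. For 1, both sides are integrals over `r` of the numbers of zeros in the disc of radius `r` by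
Jensen's formula. If the polynomials `P - s X ^ n`, `P - t X ^ n` have `p` and `q` zeros in the disc, an
orthogonality argument with polynomial multipliers shows that `P - x X ^ n` has at least as many zeros
there as is needed. For the first inequality in 2, all points between `s` and `t` have small Mahler
measure by 1, and the product of many members of the pencil (a Chebyshev polynomial of `P / X ^ n`)
gives an analytic function that is bounded by the reciprocal of the capacity of the segment. For the
second one, the lemma of Schwarz and Pick is applied to an outer function.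
-/

set_option autoImplicit false

open Polynomial

namespace Pool.Agent.Results.MP_dc0c68_nt.MiddleCoefficient

theorem result :
    -- 1. all complex polynomials
    (∀ (P : ℂ[X]) (n : ℕ), 0 < n → P.natDegree ≤ 2 * n → P.coeff 0 ≠ 0 →
      ∀ s t x : ℂ, x ∈ segment ℝ s t → ‖P.coeff 0‖ * (P - C x * X ^ n).mahlerMeasure ≤
        (P - C s * X ^ n).mahlerMeasure * (P - C t * X ^ n).mahlerMeasure) ∧
    -- 2. self-inversive polynomials
    (∀ (P : ℂ[X]) (n : ℕ), 0 < n → P.natDegree = 2 * n →
      (∀ i ≤ 2 * n, P.coeff (2 * n - i) = starRingEnd ℂ (P.coeff i)) → ‖P.coeff 0‖ = 1 →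
      (∀ s t : ℝ, |s - t| ≤ 4 * (P - C (s : ℂ) * X ^ n).mahlerMeasure *
        (P - C (t : ℂ) * X ^ n).mahlerMeasure) ∧
      ∀ t : ℂ, |t.im| ≤ (P - C t * X ^ n).mahlerMeasure - 1 / (P - C t * X ^ n).mahlerMeasure) ∧
    -- 3. reciprocal polynomials with integer coefficients
    (∀ (F : ℤ[X]) (n : ℕ), 0 < n → F.natDegree = 2 * n → F.reverse = F → ∀ K : ℝ,
      {k : ℤ | ((F - C k * X ^ n).map (Int.castRingHom ℂ)).mahlerMeasure ≤ K}.Finite ∧
      ({k : ℤ | ((F - C k * X ^ n).map (Int.castRingHom ℂ)).mahlerMeasure ≤ K}.ncard : ℝ) ≤
        4 * K ^ 2 + 1) := by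
  refine ⟨?_, ?_, ?_⟩
  · intro P n hn hP h0 s t x hx
    exact Pool.Agent.Run7.h80.Sym.pair_segment hn hP h0 hx
  · intro P n hn hd hsym h1
    have hSI : Pool.Agent.Run7.h80.Sym.SI P n :=
      { deg := hd
        npos := hn
        sym := hsym
        one := h1 }
    refine ⟨fun s t => hSI.dist_mahler s t, fun t => ?_⟩
    have := hSI.im_le t
    rw [one_div]
    exact this
  · intro F n hn hd hs K
    apply Pool.Agent.Run7.h80.Sym.ncard_le_of_diam (by positivity)
    intro k hk l hl
    have h1 := Pool.Agent.Run7.h80.Sym.int_dist hn hd hs k l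
    have h2 : ((F - C k * X ^ n).map (Int.castRingHom ℂ)).mahlerMeasure ≤ K := hk
    have h3 : ((F - C l * X ^ n).map (Int.castRingHom ℂ)).mahlerMeasure ≤ K := hl
    have h4 := mahlerMeasure_nonneg ((F - C k * X ^ n).map (Int.castRingHom ℂ))
    have h5 := mahlerMeasure_nonneg ((F - C l * X ^ n).map (Int.castRingHom ℂ))
    have h6 : ((F - C k * X ^ n).map (Int.castRingHom ℂ)).mahlerMeasure *
        ((F - C l * X ^ n).map (Int.castRingHom ℂ)).mahlerMeasure ≤ K * K :=
      mul_le_mul h2 h3 h5 (h4.trans h2)
    calc |(k : ℝ) - l| ≤ 4 * (((F - C k * X ^ n).map (Int.castRingHom ℂ)).mahlerMeasure *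
        ((F - C l * X ^ n).map (Int.castRingHom ℂ)).mahlerMeasure) := by
          rw [← mul_assoc]
          exact h1
      _ ≤ 4 * (K * K) := by linarith
      _ = 4 * K ^ 2 := by ring

end Pool.Agent.Results.MP_dc0c68_nt.MiddleCoefficient
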