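import Mathlib
import Pool.Agent.Run7.h80.Comp.Relative

/-!
# Norms of polynomials over an arbitrary number field

Schinzel proved in 1973 that `M(f) ≥ φ ^ (d / 2)`, `φ = (1 + √5) / 2`, if `f ∈ ℤ[X]` is the norm of a
monic polynomial `P` with integral coefficients over a totally real field or a CM field of degree `d`
and `P` is not self-inversive. Over an arbitrary number field no such inequality is possible without
a further condition, because every monic polynomial is the norm of a linear polynomial. We prove it
over an arbitrary number field `F` as soon as finitely many of the upper coefficients have complex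
conjugates in `F`: if `k` is an index with `P_k ≠ P_0 conj(P_(m-k))` in some complex embedding,
`m = deg P`, then it is enough that for `0 < j ≤ k` the complex conjugate of `P_(m-j)` is given by
an element of `F` that does not depend on the embedding. For example, all other coefficients are
arbitrary integers of `F` if `P_(m-j)` is in `ℤ` for `0 < j ≤ k`.

For `k = 1` and `P_(m-1)` rational this is close to a theorem of Beukers and Zagier for the trace.
-/

set_option autoImplicit false

open Polynomial

namespace Pool.Agent.Results.MP_dc0c68_nt.RelativeSchinzel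

/-- The Mahler measure of an integer polynomial. -/
noncomputable def M (f : ℤ[X]) : ℝ := (f.map (Int.castRingHom ℂ)).mahlerMeasure

theorem result (F : Type) [Field F] [NumberField F] (P : F[X]) (f : ℤ[X]) (k : ℕ) (hP : P.Monic)
    (hint : ∀ i, IsIntegral ℤ (P.coeff i)) (h0 : P.coeff 0 ≠ 0) (hk : 0 < k)
    (hkm : k ≤ P.natDegree)
    (hc : ∀ j, 0 < j → j ≤ k → ∃ y : F, ∀ σ : F →+* ℂ,
      σ y = starRingEnd ℂ (σ (P.coeff (P.natDegree - j))))
    (hne : ∃ σ : F →+* ℂ,
      σ (P.coeff k) ≠ σ (P.coeff 0) * starRingEnd ℂ (σ (P.coeff (P.natDegree - k))))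
    (hf : f.map (Int.castRingHom ℂ) = ∏ σ : F →+* ℂ, P.map σ) :
    Real.goldenRatio ^ (Module.finrank ℚ F) ≤ M f ^ 2 :=
  Pool.Agent.Run7.h80.Comp.relative hP hint h0 hk hkm hc hne hf

end Pool.Agent.Results.MP_dc0c68_nt.RelativeSchinzel
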