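import Mathlib
import Pool.Agent.Run7.h80.Comp.Sharp
import Pool.Agent.Run7.h80.Sym.SharpL

/-!
# Lehmer's problem for composite polynomials: the sharp bound

Let `φ = (1 + √5) / 2` and let `h` be a Laurent polynomial with integer coefficients, not of the form
`a X ^ m + c`, such that `h(1/X)` is neither `h(X)` nor `c - h(X)`. (All polynomials that are not of
the form `a X ^ m + c` are allowed.) There are at most two rational numbers such that
`M(g ∘ h) ≥ φ ^ (N / 2)` for every nonzero `g ∈ ℤ[X]`, where `N` is the number of complex zeros of `g`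
different from these two numbers. For `h = X ^ 2 + X` equality holds for polynomials `g` of every
degree divisible by four that have no rational zero, so the constant `√φ = 1.27…` is best possible.
If `h` is a polynomial and `g` has at least two distinct complex zeros, then `M(g ∘ h) = 1` or
`M(g ∘ h) ≥ √φ`.

Method. For a zero `t` of `g` the inequality of Smyth and Schinzel bounds
`|h_k - h_0 h_(m-k) + t h_(m-k)|` by `up(t) ^ 2 - lo(t) ^ 2`, where `up(t)` and `lo(t)` are the products
of the absolute values of the zeros of `h - t` outside and inside the unit disc, and `k` is the first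
index for which `h_k` and `h_(m-k)` are not both zero. The products over all `t` of the left hand
sides, and of the numbers `up(t) lo(t) = |h(0) - t|`, are the absolute values of nonzero integers
divided by the leading coefficient of `g`. The weighted inequality of the arithmetic and the
geometric mean with weights `1 / φ` and `1 / φ ^ 2` separates the two products.
-/

set_option autoImplicit false

open Polynomial LaurentPolynomial

namespace Pool.Agent.Results.MP_dc0c68_nt.SharpComposition

/-- The Mahler measure of an integer polynomial. -/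
noncomputable def M (f : ℤ[X]) : ℝ := (f.map (Int.castRingHom ℂ)).mahlerMeasure

/-- The number of complex zeros of `g`, counted with multiplicity, that are not in the finite set `s`
of rational numbers. -/
noncomputable def zerosOutside (g : ℤ[X]) (s : Finset ℚ) : ℕ :=
  Multiset.card (((g.map (Int.castRingHom ℂ)).roots).filter fun z => ∀ c ∈ s, z ≠ (c : ℂ))

lemma mem_roots_of {g : ℤ[X]} (hg : g ≠ 0) {z : ℂ} (hz : aeval z g = 0) :
    z ∈ (g.map (Int.castRingHom ℂ)).roots := by
  rw [mem_roots', IsRoot, eval_map]
  exact ⟨(Polynomial.map_ne_zero_iff (Int.castRingHom ℂ).injective_int).2 hg, hz⟩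

/-- Here `T` is the variable of the Laurent polynomials, `aeval h g` is the Laurent polynomial `g(h)`,
`F` is any polynomial that differs from it by a power of the variable, and `invert` replaces the
variable by its inverse. -/
theorem result :
    -- the bound
    (∀ h : ℤ[T;T⁻¹], (∀ a c m : ℤ, h ≠ LaurentPolynomial.C a * T m + LaurentPolynomial.C c) →
      invert h ≠ h → (∀ c : ℤ, invert h ≠ LaurentPolynomial.C c - h) →
      ∃ s : Finset ℚ, s.card ≤ 2 ∧ ∀ (g F : ℤ[X]) (k : ℤ), g ≠ 0 →
        toLaurent F = T k * aeval h g → Real.goldenRatio ^ zerosOutside g s ≤ M F ^ 2) ∧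
    -- the constant is best possible
    (∀ n : ℕ, ∃ g : ℤ[X], g.natDegree = 4 * n ∧ (∀ q : ℚ, aeval q g ≠ 0) ∧
      M (g.comp (X ^ 2 + X)) ^ 2 = Real.goldenRatio ^ g.natDegree) ∧
    -- the gap for polynomials
    (∀ h : ℤ[X], (∀ (a c : ℤ) (m : ℕ), h ≠ Polynomial.C a * X ^ m + Polynomial.C c) →
      ∀ g : ℤ[X], g ≠ 0 → (∃ z w : ℂ, z ≠ w ∧ aeval z g = 0 ∧ aeval w g = 0) →
        M (g.comp h) = 1 ∨ Real.goldenRatio ≤ M (g.comp h) ^ 2) := by
  refine ⟨fun h hh h1 h2 => ?_, fun n => ?_, fun h hh g hg hzw => ?_⟩
  · exact Pool.Agent.Run7.h80.Sym.sharp_laurent h hh h1 h2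
  · obtain ⟨h1, h2, h3⟩ := Pool.Agent.Run7.h80.Comp.sharp n
    exact ⟨_, h1, h2, h3⟩
  · obtain ⟨z, w, hne, hz, hw⟩ := hzw
    exact Pool.Agent.Run7.h80.Comp.comp_gap hh hg hne (mem_roots_of hg hz) (mem_roots_of hg hw)

end Pool.Agent.Results.MP_dc0c68_nt.SharpComposition
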